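import Pool.Agent.T9h63.SH.Poly

set_option autoImplicit false

namespace Pool.Agent.T9h63.SH

/-- the first values of `T_k (3)` -/
def tab : List ℕ := [1, 3, 17, 99, 577, 3363, 19601, 114243, 665857, 3880899, 22619537, 131836323, 768398401, 4478554083, 26102926097, 152139002499, 886731088897, 5168247530883, 30122754096401, 175568277047523, 1023286908188737, 5964153172084899, 34761632124320657, 202605639573839043, 1180872205318713601, 6882627592338442563]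

lemma tab_ok : ∀ k < 26, tt k = (tab.getD k 0 : ℕ) := by decide +kernel

/-- the inequality which has to be checked for small dimensions -/
def check (d : ℕ) : Bool :=
  let k := (d + 17) / 12
  let t := tab.getD k 0
  let a := (d + 1).ascFactorial k
  let f := k.factorial
  decide (a < t ^ 2 * f) && decide (a * (t ^ 2 - 1) * 8 ^ d ≤ 5 * 11 ^ d * (t ^ 2 * f - a))

lemma check_ok : ∀ d < 276, check d = true := by decide +kernel

lemma tt_step : ∀ k, 0 < tt (k + 1) ∧ 28 * tt (k + 1) ≤ 5 * tt (k + 2)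
  | 0 => by simp [tt]
  | (k + 1) => by
    obtain ⟨h1, h2⟩ := tt_step k
    have h3 : tt (k + 3) = 6 * tt (k + 2) - tt (k + 1) := rfl
    refine ⟨?_, ?_⟩
    · show 0 < tt (k + 2)
      omega
    · show 28 * tt (k + 2) ≤ 5 * tt (k + 3)
      rw [h3]
      omega

/-- small dimensions -/
lemma small (m d : ℕ) (hd : d < 276)
    (h : ∀ k, (m : ℤ) * tt k ^ 2 ≤ ((d + k).choose k : ℤ) * (tt k ^ 2 + m - 1)) :
    m * 8 ^ d ≤ 5 * 11 ^ d := by
  have h1 := check_ok d hd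
  have h2 := h ((d + 17) / 12)
  have hk : (d + 17) / 12 < 26 := by omega
  rw [tab_ok _ hk] at h2
  simp only [check, Bool.and_eq_true, decide_eq_true_eq] at h1
  generalize (d + 17) / 12 = k at h1 h2
  generalize tab.getD k 0 = t at h1 h2
  have h3 : (d + 1).ascFactorial k = k.factorial * (d + k).choose k :=
    Nat.ascFactorial_eq_factorial_mul_choose d k
  rw [h3] at h1
  generalize (d + k).choose k = D at h1 h2
  have hf : 0 < k.factorial := Nat.factorial_pos k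
  generalize k.factorial = f at h1 hf
  obtain ⟨h4, h5⟩ := h1
  have h6 : D < t ^ 2 := by
    rw [mul_comm (t ^ 2)] at h4
    exact Nat.lt_of_mul_lt_mul_left h4
  have h7 : D * (t ^ 2 - 1) * 8 ^ d ≤ 5 * 11 ^ d * (t ^ 2 - D) := by
    have e1 : t ^ 2 * f - f * D = f * (t ^ 2 - D) := by
      rw [Nat.mul_sub, mul_comm f (t ^ 2)]
    rw [e1] at h5
    have e2 : f * (D * (t ^ 2 - 1) * 8 ^ d) ≤ f * (5 * 11 ^ d * (t ^ 2 - D)) := by
      calc f * (D * (t ^ 2 - 1) * 8 ^ d) = f * D * (t ^ 2 - 1) * 8 ^ d := by ring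
        _ ≤ 5 * 11 ^ d * (f * (t ^ 2 - D)) := h5
        _ = _ := by ring
    exact Nat.le_of_mul_le_mul_left e2 hf
  have h8 : m * (t ^ 2 - D) ≤ D * (t ^ 2 - 1) := by
    zify [h6.le, show 1 ≤ t ^ 2 by omega]
    push_cast at h2
    linarith
  have h9 : (t ^ 2 - D) * (m * 8 ^ d) ≤ (t ^ 2 - D) * (5 * 11 ^ d) := by
    calc (t ^ 2 - D) * (m * 8 ^ d) = m * (t ^ 2 - D) * 8 ^ d := by ring
      _ ≤ D * (t ^ 2 - 1) * 8 ^ d := Nat.mul_le_mul_right _ h8
      _ ≤ 5 * 11 ^ d * (t ^ 2 - D) := h7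
      _ = _ := by ring
  exact Nat.le_of_mul_le_mul_left h9 (by omega)

/-- the binomial theorem -/
lemma choose_le (d k : ℕ) : (d + k).choose k * 11 ^ d ≤ 12 ^ (d + k) := by
  have h1 := add_pow (1 : ℕ) 11 (d + k)
  simp only [Nat.cast_id] at h1
  have h2 : (1 : ℕ) ^ k * 11 ^ (d + k - k) * (d + k).choose k ≤
      ∑ m ∈ Finset.range (d + k + 1), 1 ^ m * 11 ^ (d + k - m) * (d + k).choose m :=
    Finset.single_le_sum (f := fun m => 1 ^ m * 11 ^ (d + k - m) * (d + k).choose m)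
      (fun _ _ => Nat.zero_le _) (Finset.mem_range.mpr (by omega))
  rw [← h1] at h2
  simp only [one_pow, one_mul, Nat.add_sub_cancel] at h2
  calc (d + k).choose k * 11 ^ d = 11 ^ d * (d + k).choose k := mul_comm _ _
    _ ≤ (1 + 11) ^ (d + k) := h2
    _ = _ := by norm_num

lemma big0 : 2 * 12 ^ 312 ≤ 40114893348711941777 ^ 2 * 11 ^ 286 := by decide +kernel

lemma tt26 : tt 26 = 40114893348711941777 := by
  have h1 : tt 26 = 6 * tt 25 - tt 24 := rfl
  rw [h1, tab_ok 25 (by norm_num), tab_ok 24 (by norm_num)]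
  norm_num [tab]

/-- one step of the induction -/
lemma step1 {A x y P : ℤ} (hx : 0 < x) (hxy : 28 * x ≤ 5 * y) (hP : 0 < P)
    (ih : 2 * A ≤ x ^ 2 * P) : 2 * (A * 12 ^ 12) ≤ y ^ 2 * (P * 11 ^ 11) := by
  have h5 : (28 * x) ^ 2 ≤ (5 * y) ^ 2 := pow_le_pow_left₀ (by positivity) hxy 2
  have h10 : 784 * x ^ 2 ≤ 25 * y ^ 2 := by nlinarith
  have h7 : 784 * x ^ 2 * P ≤ 25 * y ^ 2 * P := mul_le_mul_of_nonneg_right h10 hP.le
  have h8 : 784 * (x ^ 2 * P) ≤ 25 * (y ^ 2 * P) := by linarith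
  have h9 : 0 ≤ y ^ 2 * P := by positivity
  have e3 : y ^ 2 * (P * 11 ^ 11) = (y ^ 2 * P) * 11 ^ 11 := by ring
  rw [e3]
  generalize y ^ 2 * P = Q at *
  generalize x ^ 2 * P = R at *
  norm_num
  linarith

/-- from the polynomial bound to twice the number of monomials -/
lemma step2 {m D T : ℤ} (hm : 0 ≤ m) (hD : 0 ≤ D) (hT : 0 < T) (h1 : m * T ≤ D * (T + m - 1))
    (h2 : 2 * D ≤ T) : m ≤ 2 * D := by
  rcases hD.lt_or_eq with h | h
  · by_contra hcon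
    push Not at hcon
    have h3 : (m - D) * (2 * D) ≤ (m - D) * T := mul_le_mul_of_nonneg_left h2 (by linarith)
    have h4 : D * (2 * (m - D)) ≤ D * (m - 1) := by linarith
    have h5 := le_of_mul_le_mul_left h4 h
    linarith
  · rw [← h] at h1 ⊢
    by_contra hcon
    push Not at hcon
    have : 0 < m * T := mul_pos (by linarith) hT
    linarith

attribute [local irreducible] tt

lemma big1 : ∀ j, 2 * (12 : ℤ) ^ (12 * (j + 26)) ≤ tt (j + 26) ^ 2 * 11 ^ (11 * (j + 26)) := by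
  intro j
  induction j with
  | zero =>
    rw [show 0 + 26 = 26 from rfl, tt26, show 12 * 26 = 312 from rfl,
      show 11 * 26 = 286 from rfl]
    exact_mod_cast big0
  | succ j ih =>
    obtain ⟨h1, h2⟩ := tt_step (j + 25)
    have e1 : (12 : ℤ) ^ (12 * (j + 1 + 26)) = 12 ^ (12 * (j + 26)) * 12 ^ 12 := by
      rw [← pow_add, show 12 * (j + 1 + 26) = 12 * (j + 26) + 12 by omega]
    have e2 : (11 : ℤ) ^ (11 * (j + 1 + 26)) = 11 ^ (11 * (j + 26)) * 11 ^ 11 := by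
      rw [← pow_add, show 11 * (j + 1 + 26) = 11 * (j + 26) + 11 by omega]
    rw [e1, e2, show j + 1 + 26 = j + 27 by omega]
    rw [show j + 25 + 1 = j + 26 by omega, show j + 25 + 2 = j + 27 by omega] at h2
    rw [show j + 25 + 1 = j + 26 by omega] at h1
    exact step1 h1 h2 (by positivity) ih

lemma big3 : 2 * 12 ^ 26 * 96 ^ 276 ≤ 5 * 121 ^ 276 := by decide +kernel

lemma big2 : ∀ j, 2 * (12 : ℕ) ^ (j + 26) * 96 ^ (11 * j + 276) ≤ 5 * 121 ^ (11 * j + 276) := by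
  intro j
  induction j with
  | zero => exact big3
  | succ j ih =>
    have e1 : (12 : ℕ) ^ (j + 1 + 26) = 12 ^ (j + 26) * 12 := by
      rw [show j + 1 + 26 = (j + 26) + 1 by omega, pow_succ]
    have e2 : (96 : ℕ) ^ (11 * (j + 1) + 276) = 96 ^ (11 * j + 276) * 96 ^ 11 := by
      rw [← pow_add, show 11 * (j + 1) + 276 = 11 * j + 276 + 11 by omega]
    have e3 : (121 : ℕ) ^ (11 * (j + 1) + 276) = 121 ^ (11 * j + 276) * 121 ^ 11 := by
      rw [← pow_add, show 11 * (j + 1) + 276 = 11 * j + 276 + 11 by omega]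
    rw [e1, e2, e3]
    generalize (12 : ℕ) ^ (j + 26) = A at ih ⊢
    generalize (96 : ℕ) ^ (11 * j + 276) = B at ih ⊢
    generalize (121 : ℕ) ^ (11 * j + 276) = C at ih ⊢
    calc 2 * (A * 12) * (B * 96 ^ 11) = (2 * A * B) * (12 * 96 ^ 11) := by ring
      _ ≤ (5 * C) * (12 * 96 ^ 11) := Nat.mul_le_mul_right _ ih
      _ ≤ (5 * C) * 121 ^ 11 := Nat.mul_le_mul_left _ (by norm_num)
      _ = _ := by ring

/-- the inequalities between the powers, abstractly -/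
lemma core {m D x1 x2 x3 x4 x5 x6 x7 x8 x9 y1 y2 y3 : ℕ} {t : ℤ}
    (h1 : (m : ℤ) * t ^ 2 ≤ D * (t ^ 2 + m - 1)) (hc : D * x1 ≤ x2)
    (p12 : x2 * x4 = x5) (p11 : x1 * x3 = x6) (q1 : x3 ≤ x4)
    (hT : 2 * (x5 : ℤ) ≤ t ^ 2 * x6) (hb : 2 * x7 * x8 ≤ 5 * x9)
    (r1 : y3 * x2 = (x7 * x8) * y1) (r2 : x9 * y2 = x1 * x1) (q2 : y1 ≤ y2)
    (hx1 : 0 < x1) (hx6 : 0 < x6) (hx5 : 0 < x5) : m * y3 ≤ 5 * x1 := by
  have hD : 2 * D * x6 ≤ 2 * x5 := by
    rw [← p11, ← p12]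
    calc 2 * D * (x1 * x3) = 2 * ((D * x1) * x3) := by ring
      _ ≤ 2 * (x2 * x4) := Nat.mul_le_mul_left _ (Nat.mul_le_mul hc q1)
  have hx6' : (0 : ℤ) < x6 := by exact_mod_cast hx6
  have hx5' : (0 : ℤ) < x5 := by exact_mod_cast hx5
  have h2 : 2 * (D : ℤ) ≤ t ^ 2 := by
    have e5 : 2 * (D : ℤ) * x6 ≤ t ^ 2 * x6 := by
      refine le_trans ?_ hT
      exact_mod_cast hD
    exact le_of_mul_le_mul_right e5 hx6'
  have ht : 0 < t ^ 2 := by
    by_contra hcon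
    push Not at hcon
    have := mul_nonpos_of_nonpos_of_nonneg hcon hx6'.le
    linarith
  have h3 : (m : ℤ) ≤ 2 * D :=
    step2 (m := (m : ℤ)) (D := (D : ℤ)) (T := t ^ 2) (by positivity) (by positivity) ht h1 h2
  have h4 : m ≤ 2 * D := by exact_mod_cast h3
  have h5 : m * y3 * x1 ≤ 5 * x1 * x1 := by
    calc m * y3 * x1 ≤ 2 * D * y3 * x1 :=
          Nat.mul_le_mul_right _ (Nat.mul_le_mul_right _ h4)
      _ = 2 * y3 * (D * x1) := by ring
      _ ≤ 2 * y3 * x2 := Nat.mul_le_mul_left _ hc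
      _ = 2 * (y3 * x2) := by ring
      _ = (2 * x7 * x8) * y1 := by rw [r1]; ring
      _ ≤ (5 * x9) * y2 := Nat.mul_le_mul hb q2
      _ = 5 * (x9 * y2) := by ring
      _ = 5 * x1 * x1 := by rw [r2]; ring
  exact Nat.le_of_mul_le_mul_right h5 hx1

/-- large dimensions -/
lemma large (m d : ℕ) (hd : 276 ≤ d)
    (h : ∀ k, (m : ℤ) * tt k ^ 2 ≤ ((d + k).choose k : ℤ) * (tt k ^ 2 + m - 1)) :
    m * 8 ^ d ≤ 5 * 11 ^ d := by
  obtain ⟨j, s, hs, hds⟩ : ∃ j s, s ≤ 10 ∧ d = 11 * j + 276 + s :=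
    ⟨(d - 276) / 11, (d - 276) % 11, by omega, by omega⟩
  have p12 : (12 : ℕ) ^ (d + (j + 26)) * 12 ^ (10 - s) = 12 ^ (12 * (j + 26)) := by
    rw [← pow_add, show d + (j + 26) + (10 - s) = 12 * (j + 26) by omega]
  have p11 : (11 : ℕ) ^ d * 11 ^ (10 - s) = 11 ^ (11 * (j + 26)) := by
    rw [← pow_add, show d + (10 - s) = 11 * (j + 26) by omega]
  have q1 : (11 : ℕ) ^ (10 - s) ≤ 12 ^ (10 - s) := Nat.pow_le_pow_left (by norm_num) _
  have a1 : (96 : ℕ) ^ (11 * j + 276) * 96 ^ s = 96 ^ d := by rw [← pow_add, ← hds]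
  have a2 : (96 : ℕ) ^ d = 8 ^ d * 12 ^ d := by
    rw [← mul_pow, show 8 * 12 = 96 by norm_num]
  have a3 : (12 : ℕ) ^ (d + (j + 26)) = 12 ^ d * 12 ^ (j + 26) := pow_add _ _ _
  have r1 : (8 : ℕ) ^ d * 12 ^ (d + (j + 26)) = (12 ^ (j + 26) * 96 ^ (11 * j + 276)) * 96 ^ s := by
    rw [mul_assoc, a1, a2, a3]
    generalize (8 : ℕ) ^ d = u
    generalize (12 : ℕ) ^ d = v
    generalize (12 : ℕ) ^ (j + 26) = w
    ring
  have r2 : (121 : ℕ) ^ (11 * j + 276) * 121 ^ s = 11 ^ d * 11 ^ d := by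
    rw [← pow_add, ← hds, ← mul_pow, show 11 * 11 = 121 by norm_num]
  have q2 : (96 : ℕ) ^ s ≤ 121 ^ s := Nat.pow_le_pow_left (by norm_num) _
  have hT : 2 * ((12 ^ (12 * (j + 26)) : ℕ) : ℤ) ≤ tt (j + 26) ^ 2 * ((11 ^ (11 * (j + 26)) : ℕ) : ℤ) := by
    have := big1 j
    rw [Nat.cast_pow, Nat.cast_pow]
    exact this
  exact core (h (j + 26)) (choose_le d (j + 26)) p12 p11 q1 hT (big2 j) r1 r2 q2
    (pow_pos (by norm_num) _) (pow_pos (by norm_num) _) (pow_pos (by norm_num) _)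

/-- A system of `m` vectors and functionals in dimension `d` with pairings in `[-1, 0]` off the
diagonal and `1` on it has `m ≤ 5 (11 / 8) ^ d`. -/
theorem expo_bound {m d : ℕ} (F X : Fin m → Fin d → ℝ) (h1 : ∀ i, ∑ k, F i k * X i k = 1)
    (h2 : ∀ i j, i ≠ j → -1 ≤ ∑ k, F i k * X j k ∧ ∑ k, F i k * X j k ≤ 0) :
    m * 8 ^ d ≤ 5 * 11 ^ d := by
  rcases Nat.lt_or_ge d 276 with h | h
  · exact small m d h (poly_bound F X h1 h2)
  · exact large m d h (poly_bound F X h1 h2)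

end Pool.Agent.T9h63.SH
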