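import Pool.Agent.T9h63.SH.Mat

set_option autoImplicit false

open Set Pool.Agent.Results.MP_75a0ab_co.NotDense Pointwise

namespace Pool.Agent.T9h63.SH

/-- the body thickened by a ball -/
noncomputable def thick {d : ℕ} (K : SymBody d) (r : ℝ) (hr : 0 < r) : SymBody d :=
  ⟨{ carrier := (K.1 : Set (E d)) + Metric.closedBall 0 r
     convex' := K.1.convex.add (convex_closedBall 0 r)
     isCompact' := K.1.isCompact.add (isCompact_closedBall 0 r)
     nonempty' := K.1.nonempty.add ⟨0, Metric.mem_closedBall_self hr.le⟩ }, by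
    constructor
    · obtain ⟨z, hz⟩ := K.2.1
      refine ⟨z, interior_maximal (t := interior (K.1 : Set (E d))) ?_ isOpen_interior hz⟩
      intro x hx
      exact ⟨x, interior_subset hx, 0, Metric.mem_closedBall_self hr.le, by simp⟩
    · rintro _ ⟨p, hp, u, hu, rfl⟩
      refine ⟨-p, K.2.2 p hp, -u, ?_, ?_⟩
      · rw [mem_closedBall_zero_iff] at hu ⊢
        rwa [norm_neg]
      · simp only [neg_add]⟩

lemma mem_thick {d : ℕ} {K : SymBody d} {r : ℝ} {hr : 0 < r} {x : E d} :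
    x ∈ ((thick K r hr).1 : Set (E d)) ↔ ∃ p ∈ (K.1 : Set (E d)), ∃ u : E d, ‖u‖ ≤ r ∧ p + u = x := by
  constructor
  · rintro ⟨p, hp, u, hu, rfl⟩
    exact ⟨p, hp, u, by simpa using hu, rfl⟩
  · rintro ⟨p, hp, u, hu, rfl⟩
    exact ⟨p, hp, u, by simpa using hu, rfl⟩

lemma dist_thick {d : ℕ} (K : SymBody d) (r : ℝ) (hr : 0 < r) : dist (thick K r hr) K ≤ r := by
  show Metric.hausdorffDist ((thick K r hr).1 : Set (E d)) (K.1 : Set (E d)) ≤ r
  refine Metric.hausdorffDist_le_of_mem_dist hr.le ?_ ?_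
  · intro x hx
    obtain ⟨p, hp, u, hu, rfl⟩ := mem_thick.1 hx
    exact ⟨p, hp, by simpa [dist_eq_norm] using hu⟩
  · intro x hx
    exact ⟨x, mem_thick.2 ⟨x, hx, 0, by simpa using hr.le, by simp⟩, by simpa using hr.le⟩

/-- a functional maximal on a ball at `u` is a nonnegative multiple of the scalar product by `u` -/
lemma fun_of_max {d : ℕ} {r : ℝ} (hr : 0 < r) {u : E d} (hu : ‖u‖ ≤ r) {f : E d →L[ℝ] ℝ}
    (hf : f ≠ 0) (h : ∀ u' : E d, ‖u'‖ ≤ r → f u' ≤ f u) :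
    ∃ s : ℝ, 0 < s ∧ f = s • (innerSL ℝ u) := by
  obtain ⟨a, ha⟩ : ∃ a : E d, ∀ x, f x = inner ℝ a x :=
    ⟨(InnerProductSpace.toDual ℝ (E d)).symm f, fun x => by simp⟩
  have ha0 : a ≠ 0 := by
    rintro rfl
    apply hf
    ext x
    simp [ha]
  have hn : 0 < ‖a‖ := norm_pos_iff.mpr ha0
  have h1 : r * ‖a‖ ≤ inner ℝ a u := by
    have h2 := h ((r / ‖a‖) • a) (by
      rw [norm_smul, Real.norm_of_nonneg (by positivity), div_mul_cancel₀ _ hn.ne'])
    rw [ha, ha, inner_smul_right, real_inner_self_eq_norm_sq] at h2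
    have h3 : r / ‖a‖ * ‖a‖ ^ 2 = r * ‖a‖ := by field_simp
    linarith
  have h4 : ‖r • a - ‖a‖ • u‖ ^ 2 ≤ 0 := by
    rw [norm_sub_sq_real, norm_smul, norm_smul, inner_smul_left, inner_smul_right,
      Real.norm_of_nonneg hr.le, norm_norm]
    simp only [conj_trivial]
    have h5 : ‖u‖ ^ 2 ≤ r ^ 2 := by gcongr
    have h6 : ‖a‖ ^ 2 * ‖u‖ ^ 2 ≤ ‖a‖ ^ 2 * r ^ 2 := by gcongr
    have h7 : r * ‖a‖ * (r * ‖a‖) ≤ r * ‖a‖ * inner ℝ a u := by gcongr
    nlinarith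
  have h5 : r • a = ‖a‖ • u := by
    have : ‖r • a - ‖a‖ • u‖ = 0 := by
      have := le_antisymm h4 (by positivity)
      simpa using this
    exact sub_eq_zero.mp (norm_eq_zero.mp this)
  refine ⟨‖a‖ / r, by positivity, ?_⟩
  ext x
  have h6 : a = (‖a‖ / r) • u := by
    rw [div_eq_inv_mul, ← smul_smul, ← h5, smul_smul, inv_mul_cancel₀ hr.ne', one_smul]
  rw [ha]
  simp only [ContinuousLinearMap.smul_apply, innerSL_apply_apply, smul_eq_mul]
  conv_lhs => rw [h6, inner_smul_left]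
  simp

lemma smooth_thick {d : ℕ} (K : SymBody d) (r : ℝ) (hr : 0 < r) :
    IsSmooth ((thick K r hr).1 : Set (E d)) := by
  intro x hx f g hf hg h1 h2
  obtain ⟨p, hp, u, hu, rfl⟩ := mem_thick.1 hx
  have key : ∀ φ : E d →L[ℝ] ℝ, (∀ y ∈ ((thick K r hr).1 : Set (E d)), φ y ≤ φ (p + u)) →
      ∀ u' : E d, ‖u'‖ ≤ r → φ u' ≤ φ u := by
    intro φ hφ u' hu'
    have := hφ (p + u') (mem_thick.2 ⟨p, hp, u', hu', rfl⟩)
    rw [map_add, map_add] at this
    linarith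
  obtain ⟨s, hs, hs'⟩ := fun_of_max hr hu hf (key f h1)
  obtain ⟨t, ht, ht'⟩ := fun_of_max hr hu hg (key g h2)
  refine ⟨t / s, by positivity, ?_⟩
  rw [ht', hs', smul_smul, div_mul_cancel₀ _ hs.ne']

/-- smooth symmetric bodies are dense -/
lemma dense_of_smooth {d : ℕ} {S : Set (SymBody d)}
    (h : ∀ K : SymBody d, IsSmooth (K.1 : Set (E d)) → K ∈ S) : Dense S := by
  rw [Metric.dense_iff]
  intro K r hr
  refine ⟨thick K (r / 2) (by positivity), ?_, h _ (smooth_thick _ _ _)⟩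
  rw [Metric.mem_ball]
  have := dist_thick K (r / 2) (by positivity)
  linarith

end Pool.Agent.T9h63.SH
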