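import Pool.Agent.Results.MP_75a0ab_co.NotDense

set_option autoImplicit false

open Set Pool.Agent.Results.MP_75a0ab_co.NotDense

namespace Pool.Agent.T9h63.SH

/-- `K` is smooth: two nonzero linear functionals which attain their maximum on `K` at the same
point of `K` are positive multiples of each other. -/
def IsSmooth {d : ℕ} (K : Set (E d)) : Prop :=
  ∀ x ∈ K, ∀ f g : E d →L[ℝ] ℝ, f ≠ 0 → g ≠ 0 → (∀ y ∈ K, f y ≤ f x) → (∀ y ∈ K, g y ≤ g x) →
    ∃ t : ℝ, 0 < t ∧ g = t • f

section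
variable {d : ℕ} {K : Set (E d)}

lemma zero_mem_int (hc : Convex ℝ K) (hi : (interior K).Nonempty) (hs : ∀ x ∈ K, -x ∈ K) :
    (0 : E d) ∈ interior K := by
  obtain ⟨z, hz⟩ := hi
  have h1 : -z ∈ K := hs z (interior_subset hz)
  have h2 := hc.combo_interior_self_mem_interior hz h1 (show (0:ℝ) < 1 / 2 by norm_num)
    (show (0:ℝ) ≤ 1 / 2 by norm_num) (by norm_num)
  have h3 : (1 / 2 : ℝ) • z + (1 / 2 : ℝ) • (-z) = 0 := by module
  rwa [h3] at h2

lemma smul_mem_int (hc : Convex ℝ K) (h0 : (0 : E d) ∈ interior K) (hs : ∀ x ∈ K, -x ∈ K)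
    {x : E d} (hx : x ∈ K) {s : ℝ} (hs1 : |s| < 1) : s • x ∈ interior K := by
  rcases le_total 0 s with h | h
  · rw [abs_of_nonneg h] at hs1
    have h2 := hc.combo_interior_self_mem_interior h0 hx (show (0:ℝ) < 1 - s by linarith)
      h (by ring)
    simpa using h2
  · rw [abs_of_nonpos h] at hs1
    have h2 := hc.combo_interior_self_mem_interior h0 (hs x hx) (show (0:ℝ) < 1 + s by linarith)
      (show (0:ℝ) ≤ -s by linarith) (by ring)
    simpa using h2

/-- the maximum of a nonzero functional is positive -/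
lemma max_pos (h0 : (0 : E d) ∈ interior K) {f : E d →L[ℝ] ℝ} (hf : f ≠ 0) {c : ℝ}
    (h : ∀ x ∈ K, f x ≤ c) : 0 < c := by
  have := interior_le hf h 0 h0
  simpa using this

/-- a functional of norm one separating the body from a touching translate -/
lemma sep_fun (hc : Convex ℝ K) (h0 : (0 : E d) ∈ interior K) (hs : ∀ x ∈ K, -x ∈ K)
    {V : Finset (E d)} (hV : IsSepHadwigerConfig K V) {v : E d} (hv : v ∈ V) :
    ∃ F : E d →L[ℝ] ℝ, F ≠ 0 ∧ (∀ x ∈ K, F x ≤ 1) ∧ (1 / 2 : ℝ) • v ∈ K ∧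
      F ((1 / 2 : ℝ) • v) = 1 ∧
      ∀ w ∈ V, F ((1 / 2 : ℝ) • w) ≤ 0 ∨ F ((1 / 2 : ℝ) • w) = 1 := by
  obtain ⟨h00, ht, hp, hsep⟩ := hV
  have half : ∀ w ∈ V, (1 / 2 : ℝ) • w ∈ K := by
    intro w hw
    obtain ⟨p, ⟨q, hq, rfl⟩, hp'⟩ := ht w hw
    have h1 := hc hp' (hs q hq) (show (0:ℝ) ≤ 1 / 2 by norm_num)
      (show (0:ℝ) ≤ 1 / 2 by norm_num) (by norm_num)
    have h3 : (1 / 2 : ℝ) • (w + q) + (1 / 2 : ℝ) • (-q) = (1 / 2 : ℝ) • w := by module
    simp only at h1
    rwa [h3] at h1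
  have hne : (0 : E d) ≠ v := fun h => h00 (h ▸ hv)
  obtain ⟨f, c, hf, h1, h2, h3⟩ := hsep 0 (Or.inl rfl) v (Or.inr hv) hne
  have h1' : ∀ x ∈ K, f x ≤ c := fun x hx => h1 x ⟨x, hx, by simp⟩
  have h2' : ∀ x ∈ K, c ≤ f v + f x := by
    intro x hx
    have := h2 (v + x) ⟨x, hx, rfl⟩
    rwa [map_add] at this
  have hcpos : 0 < c := max_pos h0 hf h1'
  obtain ⟨p, ⟨q, hq, rfl⟩, hpK⟩ := ht v hv
  have e1 : f v ≤ 2 * c := by
    have a1 := h1' _ hpK
    have a2 := h1' _ (hs q hq)
    simp only [map_add, map_neg] at a1 a2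
    linarith
  have e2 : 2 * c ≤ f v := by
    have a1 := h2' _ (hs _ hpK)
    have a2 := h2' _ hq
    have a3 := h1' _ hpK
    simp only [map_add, map_neg] at a1 a2 a3
    linarith
  have e3 : f v = 2 * c := le_antisymm e1 e2
  refine ⟨c⁻¹ • f, smul_ne_zero (inv_ne_zero hcpos.ne') hf, ?_, half v hv, ?_, ?_⟩
  · intro x hx
    simp only [ContinuousLinearMap.smul_apply, smul_eq_mul]
    rw [inv_mul_le_iff₀ hcpos, mul_one]
    exact h1' x hx
  · simp only [ContinuousLinearMap.smul_apply, map_smul, smul_eq_mul, e3]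
    field_simp
  · intro w hw
    have hw1 := h1' _ (half w hw)
    have key : f ((1 / 2 : ℝ) • w) ≤ 0 ∨ f ((1 / 2 : ℝ) • w) = c := by
      by_contra hcon
      push Not at hcon
      obtain ⟨hcon1, hcon2⟩ := hcon
      have hlt : f ((1 / 2 : ℝ) • w) < c := lt_of_le_of_ne hw1 hcon2
      simp only [map_smul, smul_eq_mul] at hcon1 hlt
      -- the point `w + s x_v` with `s = 1 - f w / c`
      have hs1 : |1 - f w / c| < 1 := by
        have h5 : 0 < f w / c := by
          apply div_pos _ hcpos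
          linarith
        have h6 : f w / c < 2 := by
          rw [div_lt_iff₀ hcpos]; linarith
        rw [abs_lt]; constructor <;> linarith
      have h7 := smul_mem_int hc h0 hs (half v hv) hs1
      have h8 := h3 w (Or.inr hw)
      rw [Set.disjoint_left] at h8
      refine h8 (a := w + (1 - f w / c) • ((1 / 2 : ℝ) • v)) ?_ ?_
      · have : tr K w = (Homeomorph.addLeft w) '' K := rfl
        rw [this, ← (Homeomorph.addLeft w).image_interior]
        exact ⟨_, h7, rfl⟩
      · show f (w + (1 - f w / c) • ((1 / 2 : ℝ) • v)) = c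
        simp only [map_add, map_smul, smul_eq_mul, e3]
        field_simp
        ring
    rcases key with key | key
    · left
      simp only [ContinuousLinearMap.smul_apply, smul_eq_mul]
      exact mul_nonpos_of_nonneg_of_nonpos (inv_nonneg.mpr hcpos.le) key
    · right
      simp only [ContinuousLinearMap.smul_apply, smul_eq_mul, key]
      field_simp

lemma ge_neg_one {F : E d →L[ℝ] ℝ} (hs : ∀ x ∈ K, -x ∈ K) (h : ∀ x ∈ K, F x ≤ 1) {x : E d}
    (hx : x ∈ K) : -1 ≤ F x := by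
  have := h _ (hs x hx)
  rw [map_neg] at this
  linarith

/-- strictly convex case: two different touching translates have different functionals -/
lemma strict_case (hK : StrictConvex ℝ K) {F : E d →L[ℝ] ℝ} (hF : F ≠ 0) (h1 : ∀ x ∈ K, F x ≤ 1)
    {x y : E d} (hx : x ∈ K) (hy : y ∈ K) (hxy : x ≠ y) (hFx : F x = 1) : F y ≠ 1 := by
  intro hFy
  have h2 := hK hx hy hxy (show (0:ℝ) < 1 / 2 by norm_num) (show (0:ℝ) < 1 / 2 by norm_num)
    (by norm_num)
  have h3 := interior_le hF h1 _ h2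
  simp only [map_add, map_smul, smul_eq_mul, hFx, hFy] at h3
  norm_num at h3

/-- the open range of a functional on the interior of a translate -/
lemma miss_int (hc : Convex ℝ K) (h0 : (0 : E d) ∈ interior K) (hs : ∀ x ∈ K, -x ∈ K)
    {g : E d →L[ℝ] ℝ} {c : ℝ} (hd : Disjoint (interior (tr K 0)) {x | g x = c}) {y : E d}
    (hy : y ∈ K) (hgy : 0 < g y) : g y ≤ |c| := by
  by_contra hcon
  push Not at hcon
  have h1 : |c / g y| < 1 := by
    rw [abs_div, abs_of_pos hgy, div_lt_one hgy]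
    exact hcon
  have h2 := smul_mem_int hc h0 hs hy h1
  rw [Set.disjoint_left] at hd
  refine hd (a := (c / g y) • y) ?_ ?_
  · have : tr K 0 = K := by
      ext z; simp [tr]
    rw [this]; exact h2
  · show g ((c / g y) • y) = c
    rw [map_smul, smul_eq_mul, div_mul_cancel₀ _ hgy.ne']

/-- smooth case -/
lemma smooth_case (hc : Convex ℝ K) (hcpt : IsCompact K) (h0 : (0 : E d) ∈ interior K)
    (hs : ∀ x ∈ K, -x ∈ K) (hK : IsSmooth K) {V : Finset (E d)} (hV : IsSepHadwigerConfig K V)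
    {v w : E d} (hv : v ∈ V) (hw : w ∈ V) (hvw : v ≠ w) {F : E d →L[ℝ] ℝ}
    (hF : F ≠ 0) (hF1 : ∀ x ∈ K, F x ≤ 1) (hvK : (1 / 2 : ℝ) • v ∈ K)
    (hwK : (1 / 2 : ℝ) • w ∈ K) (hFv : F ((1 / 2 : ℝ) • v) = 1) :
    F ((1 / 2 : ℝ) • w) ≠ 1 := by
  intro hFw
  obtain ⟨h00, ht, hp, hsep⟩ := hV
  obtain ⟨g, c, hg, h1, h2, h3⟩ := hsep v (Or.inr hv) w (Or.inr hw) hvw
  -- maximum of g over K
  obtain ⟨y, hyK, hy⟩ := hcpt.exists_isMaxOn ⟨0, interior_subset h0⟩ g.continuous.continuousOn
  have hmax : ∀ x ∈ K, g x ≤ g y := fun x hx => hy hx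
  have hpos : 0 < g y := max_pos h0 hg hmax
  have a1 : g v + g y ≤ c := by
    have := h1 (v + y) ⟨y, hyK, rfl⟩
    rwa [map_add] at this
  have a2 : c ≤ g w - g y := by
    have := h2 (w + -y) ⟨-y, hs y hyK, rfl⟩
    rw [map_add, map_neg] at this
    linarith
  have a3 : g y ≤ |c| := miss_int hc h0 hs (h3 0 (Or.inl rfl)) hyK hpos
  have a4 : g w ≤ 2 * g y := by
    have := hmax _ hwK
    rw [map_smul, smul_eq_mul] at this
    linarith
  have a5 : -(2 * g y) ≤ g v := by
    have := hmax _ (hs _ hvK)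
    rw [map_neg, map_smul, smul_eq_mul] at this
    linarith
  rw [map_smul, smul_eq_mul] at hFv hFw
  rcases le_abs.1 a3 with h | h
  · -- `g` supports `K` at `w / 2`
    have e1 : g w = 2 * g y := by linarith
    have e2 : c = g y := by linarith
    obtain ⟨t, ht0, htF⟩ := hK _ hwK F g hF hg
      (by intro x hx; rw [map_smul, smul_eq_mul, hFw]; exact hF1 x hx)
      (by
        intro x hx
        rw [map_smul, smul_eq_mul, e1]
        have := hmax x hx
        linarith)
    have e3 : g v = t * F v := by rw [htF]; simp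
    have e4 : F v = 2 := by linarith
    rw [e4] at e3
    linarith
  · -- `-g` supports `K` at `v / 2`
    have e1 : g v = -(2 * g y) := by linarith
    have e2 : c = -(g y) := by linarith
    obtain ⟨t, ht0, htF⟩ := hK _ hvK F (-g) hF (neg_ne_zero.mpr hg)
      (by intro x hx; rw [map_smul, smul_eq_mul, hFv]; exact hF1 x hx)
      (by
        intro x hx
        simp only [neg_apply, map_smul, smul_eq_mul, e1]
        have := hmax _ (hs x hx)
        rw [map_neg] at this
        linarith)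
    have e3 : -(g w) = t * F w := by
      have := congrArg (fun φ : E d →L[ℝ] ℝ => φ w) htF
      simpa using this
    have e4 : F w = 2 := by linarith
    rw [e4] at e3
    linarith

/-- A separable configuration of a smooth or strictly convex body gives a system of points and
functionals with pairings in `[-1, 0]`. -/
lemma system_of_config (hc : Convex ℝ K) (hcpt : IsCompact K) (hi : (interior K).Nonempty)
    (hs : ∀ x ∈ K, -x ∈ K) (hK : IsSmooth K ∨ StrictConvex ℝ K) {V : Finset (E d)}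
    (hV : IsSepHadwigerConfig K V) :
    ∃ F : V → (E d →L[ℝ] ℝ), ∃ x : V → E d, (∀ v, F v (x v) = 1) ∧
      ∀ v w, v ≠ w → -1 ≤ F v (x w) ∧ F v (x w) ≤ 0 := by
  have h0 := zero_mem_int hc hi hs
  choose F hF using fun v : V => sep_fun hc h0 hs hV v.2
  refine ⟨F, fun v => (1 / 2 : ℝ) • (v : E d), fun v => (hF v).2.2.2.1, ?_⟩
  intro v w hvw
  obtain ⟨a1, a2, a3, a4, a5⟩ := hF v
  obtain ⟨b1, b2, b3, b4, b5⟩ := hF w
  refine ⟨ge_neg_one hs a2 b3, ?_⟩
  rcases a5 w w.2 with h | h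
  · exact h
  · exfalso
    have hvw' : (v : E d) ≠ w := fun h => hvw (Subtype.ext h)
    rcases hK with hK | hK
    · exact smooth_case hc hcpt h0 hs hK hV v.2 w.2 hvw' a1 a2 a3 b3 a4 h
    · refine strict_case hK a1 a2 a3 b3 ?_ a4 h
      intro hh
      apply hvw'
      have := congrArg (fun z => (2 : ℝ) • z) hh
      simpa [smul_smul] using this

end

end Pool.Agent.T9h63.SH
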