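import Mathlib

set_option autoImplicit false

open Finset

namespace Pool.Agent.T9h63.SH

/-- the square of the trace of a matrix which factors through `κ` is at most the size of `κ`
times the sum of the squares of the entries -/
theorem trace_sq_le {m : ℕ} {κ : Type} [Fintype κ] (F : Fin m → κ → ℝ) (X : κ → Fin m → ℝ)
    (M : Fin m → Fin m → ℝ) (hM : ∀ i j, M i j = ∑ k, F i k * X k j) :
    (∑ i, M i i) ^ 2 ≤ (Fintype.card κ : ℝ) * ∑ i, ∑ j, M i j ^ 2 := by
  classical
  set v : Fin m → EuclideanSpace ℝ (Fin m) := fun j => WithLp.toLp 2 (fun i => M i j) with hv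
  set c : κ → EuclideanSpace ℝ (Fin m) := fun k => WithLp.toLp 2 (fun i => F i k) with hc
  have hvc : ∀ j, v j = ∑ k, X k j • c k := by
    intro j
    ext i
    simp only [hv, hc, WithLp.ofLp_sum, WithLp.ofLp_smul, Finset.sum_apply, Pi.smul_apply, smul_eq_mul]
    rw [hM]
    exact sum_congr rfl fun k _ => mul_comm _ _
  set U : Submodule ℝ (EuclideanSpace ℝ (Fin m)) := Submodule.span ℝ (Set.range c) with hU
  have hvU : ∀ j, v j ∈ U := by
    intro j
    rw [hvc j]
    exact Submodule.sum_mem _ fun k _ => Submodule.smul_mem _ _ (Submodule.subset_span ⟨k, rfl⟩)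
  have hdim : Module.finrank ℝ U ≤ Fintype.card κ := finrank_range_le_card (R := ℝ) c
  set b := stdOrthonormalBasis ℝ U with hb
  set B : Fin (Module.finrank ℝ U) → EuclideanSpace ℝ (Fin m) :=
    fun k => (b k : EuclideanSpace ℝ (Fin m)) with hB
  have hBo : Orthonormal ℝ B := b.orthonormal.comp_linearIsometry U.subtypeₗᵢ
  have hexp : ∀ j, v j = ∑ k, (inner ℝ (B k) (v j) : ℝ) • B k := by
    intro j
    have h3 := b.sum_repr' (⟨v j, hvU j⟩ : U)
    have h4 := congrArg (fun x : U => (x : EuclideanSpace ℝ (Fin m))) h3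
    simp only [Submodule.coe_sum, Submodule.coe_smul] at h4
    rw [← h4]
    refine sum_congr rfl fun k _ => ?_
    rw [h4]
    rfl
  have hBk : ∀ k, ∑ j, B k j ^ 2 = 1 := by
    intro k
    have h3 : ‖B k‖ ^ 2 = 1 := by rw [hBo.1 k]; norm_num
    rw [EuclideanSpace.norm_sq_eq] at h3
    simpa only [Real.norm_eq_abs, sq_abs] using h3
  have htr : ∑ j, ∑ k, (inner ℝ (B k) (v j) : ℝ) * B k j = ∑ j, M j j := by
    refine sum_congr rfl fun j _ => ?_
    have h5 := congrArg (fun x : EuclideanSpace ℝ (Fin m) => x j) (hexp j)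
    simp only [WithLp.ofLp_sum, WithLp.ofLp_smul, Finset.sum_apply, Pi.smul_apply, smul_eq_mul] at h5
    exact h5.symm
  have hCS : (∑ j, ∑ k, (inner ℝ (B k) (v j) : ℝ) * B k j) ^ 2 ≤
      (∑ j, ∑ k, (inner ℝ (B k) (v j) : ℝ) ^ 2) * (∑ j, ∑ k, B k j ^ 2) := by
    have h3 := sum_mul_sq_le_sq_mul_sq (univ : Finset (Fin m × Fin (Module.finrank ℝ U)))
      (fun p => (inner ℝ (B p.2) (v p.1) : ℝ)) (fun p => B p.2 p.1)
    simpa only [← univ_product_univ, sum_product] using h3
  have hw2 : ∑ j, ∑ k, B k j ^ 2 ≤ Fintype.card κ := by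
    rw [sum_comm]
    simp_rw [hBk]
    rw [sum_const, card_univ, Fintype.card_fin, nsmul_eq_mul, mul_one]
    exact_mod_cast hdim
  have hB2 : ∑ j, ∑ k, (inner ℝ (B k) (v j) : ℝ) ^ 2 ≤ ∑ i, ∑ j, M i j ^ 2 := by
    have e1 : ∑ j, ∑ k, (inner ℝ (B k) (v j) : ℝ) ^ 2 ≤ ∑ j, ‖v j‖ ^ 2 := by
      refine sum_le_sum fun j _ => ?_
      have := hBo.sum_inner_products_le (v j) (s := univ)
      simpa only [Real.norm_eq_abs, sq_abs] using this
    have e2 : ∑ j, ‖v j‖ ^ 2 = ∑ i, ∑ j, M i j ^ 2 := by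
      rw [sum_comm]
      refine sum_congr rfl fun j _ => ?_
      rw [EuclideanSpace.norm_sq_eq]
      refine sum_congr rfl fun i _ => ?_
      simp only [hv, Real.norm_eq_abs, sq_abs]
    exact e1.trans e2.le
  rw [← htr, mul_comm (Fintype.card κ : ℝ)]
  exact hCS.trans (mul_le_mul hB2 hw2 (sum_nonneg fun j _ => sum_nonneg fun k _ => sq_nonneg _)
    (sum_nonneg fun j _ => sum_nonneg fun k _ => sq_nonneg _))

/-- the polynomials `T_k (2 X + 1)` -/
noncomputable def cheb : ℕ → Polynomial ℝ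
  | 0 => 1
  | 1 => 2 * Polynomial.X + 1
  | (k + 2) => 2 * (2 * Polynomial.X + 1) * cheb (k + 1) - cheb k

/-- the numbers `T_k (3)`: 1, 3, 17, 99, ... -/
def tt : ℕ → ℤ
  | 0 => 1
  | 1 => 3
  | (k + 2) => 6 * tt (k + 1) - tt k

lemma cheb_natDegree : ∀ k, (cheb k).natDegree ≤ k
  | 0 => by simp [cheb]
  | 1 => by
    rw [cheb]
    compute_degree
  | (k + 2) => by
    rw [cheb]
    have h1 := cheb_natDegree k
    have h2 := cheb_natDegree (k + 1)
    refine (Polynomial.natDegree_sub_le _ _).trans (max_le ?_ (by omega))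
    refine Polynomial.natDegree_mul_le.trans ?_
    have h3 : ((2 : Polynomial ℝ) * (2 * Polynomial.X + 1)).natDegree ≤ 1 := by compute_degree
    omega

lemma cheb_one : ∀ k, (cheb k).eval 1 = (tt k : ℝ)
  | 0 => by simp [cheb, tt]
  | 1 => by simp [cheb, tt]; norm_num
  | (k + 2) => by
    rw [cheb, tt]
    simp only [Polynomial.eval_sub, Polynomial.eval_mul, Polynomial.eval_add,
      Polynomial.eval_X, Polynomial.eval_one, Polynomial.eval_ofNat, cheb_one k, cheb_one (k + 1)]
    push_cast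
    ring

lemma cheb_cos (θ : ℝ) : ∀ k, (cheb k).eval ((Real.cos θ - 1) / 2) = Real.cos (k * θ)
  | 0 => by simp [cheb]
  | 1 => by simp [cheb]; ring
  | (k + 2) => by
    rw [cheb]
    simp only [Polynomial.eval_sub, Polynomial.eval_mul, Polynomial.eval_add,
      Polynomial.eval_X, Polynomial.eval_one, Polynomial.eval_ofNat, cheb_cos θ k,
      cheb_cos θ (k + 1)]
    have h1 : ((k + 2 : ℕ) : ℝ) * θ = ((k + 1 : ℕ) : ℝ) * θ + θ := by push_cast; ring
    have h2 : (k : ℝ) * θ = ((k + 1 : ℕ) : ℝ) * θ - θ := by push_cast; ring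
    rw [h1, h2, Real.cos_add, Real.cos_sub]
    ring

lemma cheb_abs (k : ℕ) {x : ℝ} (h1 : -1 ≤ x) (h2 : x ≤ 0) : ((cheb k).eval x) ^ 2 ≤ 1 := by
  have h3 : x = (Real.cos (Real.arccos (2 * x + 1)) - 1) / 2 := by
    rw [Real.cos_arccos (by linarith) (by linarith)]
    ring
  rw [h3, cheb_cos]
  exact Real.cos_sq_le_one _

lemma card_index (d : ℕ) : ∀ k, ∑ n ∈ range (k + 1), Nat.multichoose d n =
    Nat.multichoose (d + 1) k
  | 0 => by simp
  | (k + 1) => by
    rw [sum_range_succ, card_index d k, Nat.multichoose_succ_succ]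
    ring

/-- The polynomial bound: a system of `m` vectors and functionals in dimension `d` with pairings
in `[-1, 0]` off the diagonal and `1` on it satisfies `m T² ≤ D (T² + m - 1)`. -/
theorem poly_bound {m d : ℕ} (F X : Fin m → Fin d → ℝ) (h1 : ∀ i, ∑ k, F i k * X i k = 1)
    (h2 : ∀ i j, i ≠ j → -1 ≤ ∑ k, F i k * X j k ∧ ∑ k, F i k * X j k ≤ 0) (k : ℕ) :
    (m : ℤ) * tt k ^ 2 ≤ ((d + k).choose k : ℤ) * (tt k ^ 2 + m - 1) := by
  classical
  rcases Nat.eq_zero_or_pos m with hm0 | hm0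
  · subst hm0
    have h3 : (1 : ℤ) ≤ tt k ^ 2 := by
      have : tt k ≠ 0 := by
        intro h0
        have h4 := cheb_one k
        rw [h0] at h4
        have h5 : ∀ j, 0 < tt j ∧ tt j ≤ tt (j + 1) := by
          intro j
          induction j with
          | zero => simp [tt]
          | succ j ih =>
            obtain ⟨a, b⟩ := ih
            refine ⟨by omega, ?_⟩
            show tt (j + 1) ≤ 6 * tt (j + 1) - tt j
            omega
        exact absurd h0 (h5 k).1.ne'
      have : 0 < tt k ^ 2 := by positivity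
      omega
    have h4 : (0 : ℤ) ≤ ((d + k).choose k : ℤ) := by positivity
    simp only [Nat.cast_zero, zero_mul, add_zero]
    exact mul_nonneg h4 (by omega)
  have hm : (0 : ℝ) < m := by exact_mod_cast hm0
  -- the matrix of values of the polynomial
  let g : Fin m → Fin m → ℝ := fun i j => ∑ k, F i k * X j k
  let B : Fin m → Fin m → ℝ := fun i j => (cheb k).eval (g i j)
  let κ : Type := Σ n : Fin (k + 1), Sym (Fin d) n
  have hcard : Fintype.card κ = (d + k).choose k := by
    rw [Fintype.card_sigma]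
    simp only [Sym.card_sym_eq_multichoose, Fintype.card_fin]
    rw [Fin.sum_univ_eq_sum_range (fun n => Nat.multichoose d n) (k + 1), card_index,
      Nat.multichoose_eq]
    congr 1
    omega
  let FF : Fin m → κ → ℝ := fun i s => (cheb k).coeff s.1 *
    ((s.2 : Multiset (Fin d)).countPerms : ℝ) *
      ((s.2 : Multiset (Fin d)).map (fun a => F i a)).prod
  let XX : κ → Fin m → ℝ := fun s j => ((s.2 : Multiset (Fin d)).map (fun a => X j a)).prod
  have hB : ∀ i j, B i j = ∑ s, FF i s * XX s j := by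
    intro i j
    show (cheb k).eval (g i j) = _
    rw [Polynomial.eval_eq_sum_range' (Nat.lt_succ_of_le (cheb_natDegree k)),
      Fintype.sum_sigma, ← Fin.sum_univ_eq_sum_range
      (fun n => (cheb k).coeff n * g i j ^ n) (k + 1)]
    refine sum_congr rfl fun n _ => ?_
    show (cheb k).coeff n * (∑ a, F i a * X j a) ^ (n : ℕ) = _
    rw [Finset.sum_pow, mul_sum]
    rw [show (univ : Finset (Fin d)).sym (n : ℕ) = univ from Finset.sym_univ _]
    refine sum_congr rfl fun s _ => ?_
    show _ = (cheb k).coeff n * ((s : Multiset (Fin d)).countPerms : ℝ) *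
      ((s : Multiset (Fin d)).map (fun a => F i a)).prod *
        ((s : Multiset (Fin d)).map (fun a => X j a)).prod
    rw [Multiset.prod_map_mul]
    simp only [mul_assoc]
    rfl
  have key := trace_sq_le FF XX B hB
  have hdiag : ∀ i, B i i = tt k := by
    intro i
    show (cheb k).eval (g i i) = _
    rw [show g i i = 1 from h1 i, cheb_one]
  have htr : ∑ i, B i i = m * tt k := by
    simp only [hdiag, sum_const, card_univ, Fintype.card_fin, nsmul_eq_mul]
  have hsq : ∑ i, ∑ j, B i j ^ 2 ≤ m * (tt k ^ 2 + (m - 1)) := by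
    have h3 : ∀ i j, B i j ^ 2 ≤ 1 + (if i = j then (tt k : ℝ) ^ 2 - 1 else 0) := by
      intro i j
      split_ifs with h
      · subst h
        rw [hdiag]
        linarith
      · have := h2 i j h
        have := cheb_abs k this.1 this.2
        simpa using this
    calc ∑ i, ∑ j, B i j ^ 2 ≤ ∑ i, ∑ j, (1 + (if i = j then (tt k : ℝ) ^ 2 - 1 else 0)) :=
          sum_le_sum fun i _ => sum_le_sum fun j _ => h3 i j
      _ = m * (tt k ^ 2 + (m - 1)) := by
          simp_rw [sum_add_distrib]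
          simp
          ring
  rw [htr, hcard] at key
  have h4 : ((m : ℝ) * tt k) ^ 2 ≤ ((d + k).choose k : ℝ) * (m * (tt k ^ 2 + (m - 1))) :=
    key.trans (by gcongr)
  have h5 : (m : ℝ) * tt k ^ 2 ≤ ((d + k).choose k : ℝ) * (tt k ^ 2 + m - 1) := by
    have h6 : (m : ℝ) * ((m : ℝ) * tt k ^ 2) ≤
        m * (((d + k).choose k : ℝ) * (tt k ^ 2 + m - 1)) := by
      nlinarith
    exact le_of_mul_le_mul_left h6 hm
  exact_mod_cast h5

end Pool.Agent.T9h63.SH
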